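import Pool.Agent.Lib.MP_c60e08_gt.LmMain

/-!
# MP_c60e08_gt: a type II singularity of Lagrangian mean curvature flow with bounded mean
curvature

There is a mean curvature flow of immersed Lagrangian 3-tori in `C^3` on a time interval `[0,T)`
which becomes singular at `T`, with `sup |A|^2 (T-t) → ∞` (type II), while the mean curvature
stays bounded.  All notions (inner product, symplectic form, induced metric, second fundamental
form, mean curvature vector, `|A|^2`) are defined for arbitrary maps `R^m → C^n` in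
`Pool.Agent.Lib.MP_c60e08_gt.LmDefs`.
-/

open Real Set

namespace Pool.Agent.Results.MP_c60e08_gt.TypeIIBoundedH

open Pool.Agent.Lib.MP_c60e08_gt.Lm

theorem result :
    ∃ (T η : ℝ) (F : ℝ → (Fin 3 → ℝ) → (Fin 3 → ℂ)), 0 < T ∧ 0 < η ∧
      ContDiffOn ℝ (⊤ : ℕ∞) (fun z : ℝ × (Fin 3 → ℝ) => F z.1 z.2) (Ioo (-η) T ×ˢ univ) ∧
      (∀ t ∈ Ico 0 T, ∀ x, ∀ i, F t (x + Pi.single i (2 * π)) = F t x) ∧
      (∀ t ∈ Ico 0 T, ∀ x, LinearIndependent ℝ fun i => pd (F t) i x) ∧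
      (∀ t ∈ Ico 0 T, ∀ x, ∀ i j, symp (pd (F t) i x) (pd (F t) j x) = 0) ∧
      (∀ t ∈ Ico 0 T, ∀ x, HasDerivAt (fun s => F s x) (meanCurv (F t) x) t) ∧
      (∃ C, ∀ t ∈ Ico 0 T, ∀ x, ip (meanCurv (F t) x) (meanCurv (F t) x) ≤ C) ∧
      (∀ C, ∃ t0 < T, ∀ t ∈ Ico 0 T, t0 < t → ∃ x, C < normSqA (F t) x * (T - t)) :=
  mainStmt

end Pool.Agent.Results.MP_c60e08_gt.TypeIIBoundedH
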